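import Mathlib

/-!
# MP_1b4d93_gt: symmetric isometric immersions of spheres of revolution are rigid

Nash and Kuiper: every short immersion `u` of a positively curved sphere is a uniform limit of `C¹`
isometric immersions; Q1 asks for `C^(1,α)` ones, `α < 1/2`. Here `(S², g)` is a sphere of
revolution. We show, with no Hölder condition at all: if infinitely many rotations of the sphere
extend to rigid motions of `ℝ³` for the `C¹` isometric immersion `V`, then `V` is congruent to the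
convex surface of revolution; and a map `u` which is not isometric is not even a pointwise limit of
such immersions.
-/

set_option autoImplicit false

namespace Pool.Agent.Results.MP_1b4d93_gt.RotationRigidity

open Filter Topology

/-- Euclidean three-space -/
abbrev E3 : Type := EuclideanSpace ℝ (Fin 3)

/-- `f` is the profile of a positively curved sphere of revolution whose meridians have length `L`:
the metric is `ds² + f(s)² dθ²`, `0 ≤ s ≤ L`, where `s` is the distance from the north pole. The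
function `f` is `C²`, vanishes at both poles, `f'(0) = 1`, `f'(L) = -1`, `f > 0` in between, and the
Gauss curvature `-f''/f` is positive. -/
structure IsProfile (L : ℝ) (f : ℝ → ℝ) : Prop where
  pos : 0 < L
  smooth : ContDiff ℝ 2 f
  zero_left : f 0 = 0
  zero_right : f L = 0
  deriv_left : deriv f 0 = 1
  deriv_right : deriv f L = -1
  positive : ∀ s ∈ Set.Ioo 0 L, 0 < f s
  curvature : ∀ s ∈ Set.Ioo 0 L, 0 < -(deriv (deriv f) s) / f s

/-- The metric `ds² + f(s)² dθ²` in the geodesic normal coordinates `x = s exp(i θ)`, `|x| < L`, at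
the north pole: the square of the length of the tangent vector `X` at the point `x`. The radial
component of `X` is `Re(X conj x)/|x|`, its angular velocity `dθ(X)` is `Im(X conj x)/|x|²`. -/
noncomputable def metric (f : ℝ → ℝ) (x X : ℂ) : ℝ :=
  if x = 0 then ‖X‖ ^ 2
  else ((X * (starRingEnd ℂ) x).re / ‖x‖) ^ 2
    + (f ‖x‖ * ((X * (starRingEnd ℂ) x).im / ‖x‖ ^ 2)) ^ 2

/-- `V` is a `C¹` isometric immersion into `ℝ³` of the sphere of revolution without its south pole,
that is of the disc `|x| < L` in the geodesic normal coordinates at the north pole. (The restriction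
of a `C¹` isometric immersion of the whole sphere is one.) -/
structure IsIsometricImmersion (L : ℝ) (f : ℝ → ℝ) (V : ℂ → E3) : Prop where
  c1 : ContDiffOn ℝ 1 V (Metric.ball 0 L)
  isometric : ∀ x ∈ Metric.ball (0 : ℂ) L, ∀ X : ℂ, ‖fderiv ℝ V x X‖ ^ 2 = metric f x X

/-- The rotation `R_t : x ↦ exp(i t) x` of the sphere by the angle `t` extends to a rigid motion
`A : y ↦ p + e y` of `ℝ³`, that is `V ∘ R_t = A ∘ V`. -/
def Extends (L : ℝ) (V : ℂ → E3) (t : ℝ) : Prop :=
  ∃ (e : E3 ≃ₗᵢ[ℝ] E3) (p : E3), ∀ x ∈ Metric.ball (0 : ℂ) L,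
    V (Complex.exp (t * Complex.I) * x) = p + e (V x)

/-- The convex surface of revolution with the metric `ds² + f(s)² dθ²`: the point with the
coordinates `s = |x|` and `θ = arg x` goes to `(f(s) cos θ, f(s) sin θ, ∫_0^s √(1 - f'²))`. -/
noncomputable def convexSurface (f : ℝ → ℝ) (x : ℂ) : E3 :=
  !₂[f ‖x‖ * (x.re / ‖x‖), f ‖x‖ * (x.im / ‖x‖), ∫ s in (0 : ℝ)..‖x‖, √(1 - deriv f s ^ 2)]

/-- `|f'| < 1` between the poles -/
theorem abs_deriv_lt (L : ℝ) (f : ℝ → ℝ) (hf : IsProfile L f) (s : ℝ) (hs : s ∈ Set.Ioo 0 L) :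
    deriv f s ^ 2 < 1 := by
  have hneg : ∀ x ∈ interior (Set.Icc 0 L), deriv (deriv f) x < 0 := by
    intro x hx
    rw [interior_Icc] at hx
    have h1 := hf.curvature x hx
    have h2 := hf.positive x hx
    rw [div_pos_iff] at h1
    rcases h1 with h1 | h1
    · linarith [h1.1]
    · linarith [h1.2]
  have hcont : Continuous (deriv f) := hf.smooth.continuous_deriv (by norm_num)
  have hanti : StrictAntiOn (deriv f) (Set.Icc 0 L) :=
    strictAntiOn_of_deriv_neg (convex_Icc 0 L) hcont.continuousOn hneg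
  have h1 := hanti (Set.left_mem_Icc.mpr hf.pos.le) (Set.Ioo_subset_Icc_self hs) hs.1
  have h2 := hanti (Set.Ioo_subset_Icc_self hs) (Set.right_mem_Icc.mpr hf.pos.le) hs.2
  rw [hf.deriv_left] at h1
  rw [hf.deriv_right] at h2
  nlinarith

theorem tendsto_div_of_hasDerivAt (g : ℝ → ℝ) (c : ℝ) (h : HasDerivAt g c 0) (h0 : g 0 = 0) :
    Tendsto (fun s => g s / s) (𝓝[>] 0) (𝓝 c) := by
  have h1 := hasDerivAt_iff_tendsto_slope.mp h
  have h2 : Tendsto (slope g 0) (𝓝[>] 0) (𝓝 c) :=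
    h1.mono_left (nhdsWithin_mono 0 (fun x (hx : 0 < x) => ne_of_gt hx))
  refine h2.congr (fun s => ?_)
  rw [slope_def_field, h0, sub_zero, sub_zero]

/-- a multiple of the profile, with a derivative at the pole -/
theorem eq_mul_profile (L : ℝ) (f : ℝ → ℝ) (hf : IsProfile L f) (A A' : ℝ → ℝ) (c : ℝ)
    (hA : ∀ s ∈ Set.Ioo 0 L, HasDerivAt A (A' s) s) (hA0 : HasDerivAt A c 0) (A0 : A 0 = 0)
    (h : ∀ s ∈ Set.Ioo 0 L, f s * A' s = A s * deriv f s) :
    ∀ s ∈ Set.Ioo 0 L, A s = c * f s := by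
  have hfd : Differentiable ℝ f := hf.smooth.differentiable (by norm_num)
  have hder : ∀ s ∈ Set.Ioo 0 L, HasDerivAt (fun x => A x / f x) 0 s := by
    intro s hs
    have h1 := (hA s hs).div (hfd s).hasDerivAt (hf.positive s hs).ne'
    have h2 : (A' s * f s - A s * deriv f s) / f s ^ 2 = 0 := by
      rw [← h s hs]
      ring_nf
    rw [h2] at h1
    exact h1
  have hconst : ∀ s ∈ Set.Ioo 0 L, ∀ r ∈ Set.Ioo 0 L, A s / f s = A r / f r := by
    intro s hs r hr
    exact isOpen_Ioo.is_const_of_deriv_eq_zero isPreconnected_Ioo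
      (fun x hx => (hder x hx).differentiableAt.differentiableWithinAt)
      (fun x hx => (hder x hx).deriv) hs hr
  intro s hs
  have hfs := hf.positive s hs
  have hlim1 : Tendsto (fun r => A r / r) (𝓝[>] 0) (𝓝 c) := tendsto_div_of_hasDerivAt A c hA0 A0
  have hlim2 : Tendsto (fun r => f r / r) (𝓝[>] 0) (𝓝 1) := by
    apply tendsto_div_of_hasDerivAt f 1 _ hf.zero_left
    have := (hfd 0).hasDerivAt
    rw [hf.deriv_left] at this
    exact this
  have hlim3 : Tendsto (fun r => A r / r) (𝓝[>] 0) (𝓝 (A s / f s * 1)) := by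
    refine (hlim2.const_mul (A s / f s)).congr' ?_
    have : Set.Ioo 0 L ∈ 𝓝[>] (0 : ℝ) := Ioo_mem_nhdsGT hf.pos
    filter_upwards [this] with r hr
    rw [hconst s hs r hr]
    have := hf.positive r hr
    field_simp
  have hc := tendsto_nhds_unique hlim1 hlim3
  rw [hc]
  field_simp

/-- the height function -/
theorem height_eq (L : ℝ) (f : ℝ → ℝ) (hf : IsProfile L f) (h h' : ℝ → ℝ)
    (hd : ∀ s ∈ Set.Ioo 0 L, HasDerivAt h (h' s) s) (hc : ContinuousAt h 0) (h0 : h 0 = 0)
    (hcont : ContinuousOn h' (Set.Ioo 0 L))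
    (heq : ∀ s ∈ Set.Ioo 0 L, h' s ^ 2 = 1 - deriv f s ^ 2) :
    ∃ ε : ℝ, (ε = 1 ∨ ε = -1) ∧
      ∀ s ∈ Set.Ioo 0 L, h s = ε * ∫ r in (0 : ℝ)..s, √(1 - deriv f r ^ 2) := by
  have hfc : Continuous (deriv f) := hf.smooth.continuous_deriv (by norm_num)
  have hg : Continuous (fun r => √(1 - deriv f r ^ 2)) := by fun_prop
  have hH : ∀ s, HasDerivAt (fun x => ∫ r in (0 : ℝ)..x, √(1 - deriv f r ^ 2))
      (√(1 - deriv f s ^ 2)) s := by
    intro s
    exact intervalIntegral.integral_hasDerivAt_right (hg.intervalIntegrable _ _)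
      (hg.stronglyMeasurableAtFilter _ _) hg.continuousAt
  have hsq : Set.EqOn (h' ^ 2) ((fun r => √(1 - deriv f r ^ 2)) ^ 2) (Set.Ioo 0 L) := by
    intro s hs
    simp only [Pi.pow_apply]
    rw [Real.sq_sqrt (by linarith [abs_deriv_lt L f hf s hs]), heq s hs]
  have hne : ∀ {s}, s ∈ Set.Ioo 0 L → (fun r => √(1 - deriv f r ^ 2)) s ≠ 0 := by
    intro s hs
    have := abs_deriv_lt L f hf s hs
    simp only
    exact (Real.sqrt_pos.mpr (by linarith)).ne'
  have hor := isPreconnected_Ioo.eq_or_eq_neg_of_sq_eq hcont hg.continuousOn hsq hne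
  have key : ∀ ε : ℝ, (∀ s ∈ Set.Ioo 0 L, h' s = ε * √(1 - deriv f s ^ 2)) →
      ∀ s ∈ Set.Ioo 0 L, h s = ε * ∫ r in (0 : ℝ)..s, √(1 - deriv f r ^ 2) := by
    intro ε hε s hs
    have hder : ∀ s ∈ Set.Ioo 0 L, HasDerivAt
        (fun x => h x - ε * ∫ r in (0 : ℝ)..x, √(1 - deriv f r ^ 2)) 0 s := by
      intro s hs
      have h1 := (hd s hs).sub ((hH s).const_mul ε)
      rw [hε s hs, sub_self] at h1
      exact h1
    have hconst : ∀ r ∈ Set.Ioo 0 L,
        h s - ε * ∫ r in (0 : ℝ)..s, √(1 - deriv f r ^ 2)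
          = h r - ε * ∫ r in (0 : ℝ)..r, √(1 - deriv f r ^ 2) := by
      intro r hr
      exact isOpen_Ioo.is_const_of_deriv_eq_zero isPreconnected_Ioo
        (fun x hx => (hder x hx).differentiableAt.differentiableWithinAt)
        (fun x hx => (hder x hx).deriv) hs hr
    have hcF : ContinuousAt (fun x => h x - ε * ∫ r in (0 : ℝ)..x, √(1 - deriv f r ^ 2)) 0 :=
      hc.sub ((hH 0).continuousAt.const_mul ε)
    have hl1 : Tendsto (fun x => h x - ε * ∫ r in (0 : ℝ)..x, √(1 - deriv f r ^ 2)) (𝓝[>] 0)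
        (𝓝 (h 0 - ε * ∫ r in (0 : ℝ)..0, √(1 - deriv f r ^ 2))) :=
      hcF.tendsto.mono_left nhdsWithin_le_nhds
    have hl2 : Tendsto (fun x => h x - ε * ∫ r in (0 : ℝ)..x, √(1 - deriv f r ^ 2)) (𝓝[>] 0)
        (𝓝 (h s - ε * ∫ r in (0 : ℝ)..s, √(1 - deriv f r ^ 2))) := by
      refine tendsto_const_nhds.congr' ?_
      have : Set.Ioo 0 L ∈ 𝓝[>] (0 : ℝ) := Ioo_mem_nhdsGT hf.pos
      filter_upwards [this] with r hr
      exact hconst r hr
    have := tendsto_nhds_unique hl2 hl1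
    rw [intervalIntegral.integral_same, mul_zero, sub_zero, h0] at this
    linarith
  rcases hor with hor | hor
  · refine ⟨1, Or.inl rfl, key 1 ?_⟩
    intro s hs
    rw [one_mul]
    exact hor hs
  · refine ⟨-1, Or.inr rfl, key (-1) ?_⟩
    intro s hs
    have := hor hs
    simp only [Pi.neg_apply] at this
    rw [this]
    ring

theorem norm_sq_E3 (x : E3) : ‖x‖ ^ 2 = x 0 ^ 2 + x 1 ^ 2 + x 2 ^ 2 := by
  rw [EuclideanSpace.norm_sq_eq, Fin.sum_univ_three]
  simp

theorem inner_E3 (x y : E3) : inner ℝ x y = x 0 * y 0 + x 1 * y 1 + x 2 * y 2 := by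
  rw [PiLp.inner_apply, Fin.sum_univ_three]
  simp only [RCLike.inner_apply, conj_trivial]
  ring

theorem exp_mem_ball (L t : ℝ) (x : ℂ) (hx : x ∈ Metric.ball (0 : ℂ) L) :
    Complex.exp (t * Complex.I) * x ∈ Metric.ball (0 : ℂ) L := by
  rw [mem_ball_zero_iff] at hx ⊢
  rw [norm_mul, Complex.norm_exp_ofReal_mul_I, one_mul]
  exact hx

theorem exp_eq (t : ℝ) : Complex.exp (t * Complex.I) = ⟨Real.cos t, Real.sin t⟩ := by
  apply Complex.ext
  · rw [Complex.exp_ofReal_mul_I_re]
  · rw [Complex.exp_ofReal_mul_I_im]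

/-- if all rotations extend then `U` commutes with the rotations about the third axis -/
theorem equivariant (L : ℝ) (f : ℝ → ℝ) (hf : IsProfile L f) (U : ℂ → E3)
    (hU : IsIsometricImmersion L f U)
    (hD : ∀ X : ℂ, fderiv ℝ U 0 X = !₂[X.re, X.im, 0])
    (hs : ∀ t : ℝ, ∃ e : E3 ≃ₗᵢ[ℝ] E3, ∀ x ∈ Metric.ball (0 : ℂ) L,
       U (Complex.exp (t * Complex.I) * x) = e (U x)) :
    ∀ x ∈ Metric.ball (0 : ℂ) L, ∀ t : ℝ,
      U (Complex.exp (t * Complex.I) * x) 0 = Real.cos t * U x 0 - Real.sin t * U x 1 ∧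
      U (Complex.exp (t * Complex.I) * x) 1 = Real.sin t * U x 0 + Real.cos t * U x 1 ∧
      U (Complex.exp (t * Complex.I) * x) 2 = U x 2 := by
  have hb0 : Metric.ball (0 : ℂ) L ∈ 𝓝 (0 : ℂ) := Metric.ball_mem_nhds 0 hf.pos
  -- the first derivative at the pole
  have hpole : ∀ (t : ℝ) (e : E3 ≃ₗᵢ[ℝ] E3), (∀ x ∈ Metric.ball (0 : ℂ) L,
       U (Complex.exp (t * Complex.I) * x) = e (U x)) → ∀ X : ℂ,
       e (fderiv ℝ U 0 X) = fderiv ℝ U 0 (Complex.exp (t * Complex.I) * X) := by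
    intro t e he X
    have hdU : HasFDerivAt U (fderiv ℝ U 0) 0 :=
      ((hU.c1.contDiffAt hb0).differentiableAt (by norm_num)).hasFDerivAt
    set w : ℂ := Complex.exp (t * Complex.I) with hw
    have hmul : HasFDerivAt (fun x : ℂ => w * x) (ContinuousLinearMap.mul ℝ ℂ w) 0 :=
      (ContinuousLinearMap.mul ℝ ℂ w).hasFDerivAt
    have h1 : HasFDerivAt (fun x => U (w * x))
        ((fderiv ℝ U 0).comp (ContinuousLinearMap.mul ℝ ℂ w)) 0 := by
      apply HasFDerivAt.comp (0 : ℂ) _ hmul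
      rw [mul_zero]
      exact hdU
    have h2 : HasFDerivAt (fun x => e (U x))
        ((e.toContinuousLinearEquiv : E3 →L[ℝ] E3).comp (fderiv ℝ U 0)) 0 :=
      (e.toContinuousLinearEquiv : E3 →L[ℝ] E3).hasFDerivAt.comp (0 : ℂ) hdU
    have h3 : (fun x => U (w * x)) =ᶠ[𝓝 0] (fun x => e (U x)) := by
      filter_upwards [hb0] with x hx
      exact he x hx
    have h4 := (h2.congr_of_eventuallyEq h3).unique h1
    have h5 := congrArg (fun T => T X) h4
    simpa using h5
  intro x hx t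
  have h12 : ∀ t : ℝ,
      U (Complex.exp (t * Complex.I) * x) 0 = Real.cos t * U x 0 - Real.sin t * U x 1 ∧
      U (Complex.exp (t * Complex.I) * x) 1 = Real.sin t * U x 0 + Real.cos t * U x 1 ∧
      U (Complex.exp (t * Complex.I) * x) 2 ^ 2 = U x 2 ^ 2 := by
    intro t
    obtain ⟨e, he⟩ := hs t
    have hp := hpole t e he
    have hin : ∀ X : ℂ, inner ℝ (U (Complex.exp (t * Complex.I) * x))
        (fderiv ℝ U 0 (Complex.exp (t * Complex.I) * X)) = inner ℝ (U x) (fderiv ℝ U 0 X) := by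
      intro X
      rw [← hp X, he x hx, LinearIsometryEquiv.inner_map_map]
    have i1 := hin 1
    have i2 := hin Complex.I
    rw [hD, hD, inner_E3, inner_E3, exp_eq] at i1 i2
    simp at i1 i2
    have hn : ‖U (Complex.exp (t * Complex.I) * x)‖ ^ 2 = ‖U x‖ ^ 2 := by
      rw [he x hx, LinearIsometryEquiv.norm_map]
    rw [norm_sq_E3, norm_sq_E3, exp_eq] at hn
    rw [exp_eq]
    have hcs := Real.sin_sq_add_cos_sq t
    set a := U (⟨Real.cos t, Real.sin t⟩ * x) 0 with ha
    set b := U (⟨Real.cos t, Real.sin t⟩ * x) 1 with hb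
    set c := U (⟨Real.cos t, Real.sin t⟩ * x) 2 with hc
    have e1 : a = Real.cos t * U x 0 - Real.sin t * U x 1 := by
      rw [← i1, ← i2]
      linear_combination (-a) * hcs
    have e2 : b = Real.sin t * U x 0 + Real.cos t * U x 1 := by
      rw [← i1, ← i2]
      linear_combination (-b) * hcs
    refine ⟨e1, e2, ?_⟩
    rw [e1, e2] at hn
    linear_combination hn - (U x 0 ^ 2 + U x 1 ^ 2) * hcs
  refine ⟨(h12 t).1, (h12 t).2.1, ?_⟩
  have hcont : Continuous (fun t : ℝ => U (Complex.exp (t * Complex.I) * x) 2) := by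
    have h1 : Continuous (fun t : ℝ => Complex.exp (t * Complex.I) * x) := by fun_prop
    have h2 : Continuous (fun t : ℝ => U (Complex.exp (t * Complex.I) * x)) := by
      rw [← continuousOn_univ]
      exact hU.c1.continuousOn.comp h1.continuousOn (fun t _ => exp_mem_ball L t x hx)
    exact (EuclideanSpace.proj (2 : Fin 3) : E3 →L[ℝ] ℝ).continuous.comp h2
  by_cases hz : U x 2 = 0
  · have := (h12 t).2.2
    rw [hz] at this ⊢
    simpa using this
  · have hE : Set.EqOn (fun t : ℝ => U (Complex.exp (t * Complex.I) * x) 2) (fun _ => U x 2)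
        Set.univ := by
      refine isPreconnected_univ.eq_of_sq_eq hcont.continuousOn continuousOn_const ?_ ?_
        (Set.mem_univ 0) ?_
      · intro t _
        exact (h12 t).2.2
      · intro t _
        exact hz
      · simp
    exact hE (Set.mem_univ t)

/-- coordinates of a curve -/
theorem hasDerivAt_coord (g : ℝ → E3) (g' : E3) (s : ℝ) (h : HasDerivAt g g' s) (i : Fin 3) :
    HasDerivAt (fun x => g x i) (g' i) s := by
  have := (EuclideanSpace.proj (i : Fin 3) : E3 →L[ℝ] ℝ).hasFDerivAt.comp_hasDerivAt s h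
  exact this

/-- derivative along the real axis -/
theorem hasDerivAt_real (U : ℂ → E3) (s : ℝ) (h : DifferentiableAt ℝ U (s : ℂ)) :
    HasDerivAt (fun x : ℝ => U (x : ℂ)) (fderiv ℝ U (s : ℂ) 1) s := by
  have h1 : HasDerivAt (fun x : ℝ => (x : ℂ)) 1 s := Complex.ofRealCLM.hasDerivAt
  exact h.hasFDerivAt.comp_hasDerivAt s h1

/-- derivative along a parallel -/
theorem hasDerivAt_parallel (U : ℂ → E3) (s : ℝ) (h : DifferentiableAt ℝ U (s : ℂ)) :
    HasDerivAt (fun t : ℝ => U (Complex.exp (t * Complex.I) * s))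
      (fderiv ℝ U (s : ℂ) (Complex.I * s)) 0 := by
  have h1 : HasDerivAt (fun t : ℝ => Complex.exp (t * Complex.I) * s) (Complex.I * s) 0 := by
    have h2 : HasDerivAt (fun t : ℝ => (t : ℂ)) 1 0 := Complex.ofRealCLM.hasDerivAt
    have h3 := ((h2.mul_const Complex.I).cexp).mul_const (s : ℂ)
    simpa using h3
  have h4 : DifferentiableAt ℝ U (Complex.exp (((0 : ℝ) : ℂ) * Complex.I) * s) := by
    simpa using h
  refine (h4.hasFDerivAt.comp_hasDerivAt (0 : ℝ) h1).congr_deriv ?_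
  simp

/-- the normalised immersion -/
theorem core (L : ℝ) (f : ℝ → ℝ) (hf : IsProfile L f) (U : ℂ → E3)
    (hU : IsIsometricImmersion L f U) (h0 : U 0 = 0)
    (hD : ∀ X : ℂ, fderiv ℝ U 0 X = !₂[X.re, X.im, 0])
    (hs : ∀ t : ℝ, ∃ e : E3 ≃ₗᵢ[ℝ] E3, ∀ x ∈ Metric.ball (0 : ℂ) L,
       U (Complex.exp (t * Complex.I) * x) = e (U x)) :
    ∃ ε : ℝ, (ε = 1 ∨ ε = -1) ∧ ∀ x ∈ Metric.ball (0 : ℂ) L,
      U x = !₂[f ‖x‖ * (x.re / ‖x‖), f ‖x‖ * (x.im / ‖x‖),
        ε * ∫ s in (0 : ℝ)..‖x‖, √(1 - deriv f s ^ 2)] := by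
  have heq := equivariant L f hf U hU hD hs
  have hball : ∀ s ∈ Set.Ioo 0 L, (s : ℂ) ∈ Metric.ball (0 : ℂ) L := by
    intro s hs
    rw [mem_ball_zero_iff, Complex.norm_real, Real.norm_eq_abs, abs_of_pos hs.1]
    exact hs.2
  have hb0 : (0 : ℂ) ∈ Metric.ball (0 : ℂ) L := Metric.mem_ball_self hf.pos
  have hdiff : ∀ x ∈ Metric.ball (0 : ℂ) L, DifferentiableAt ℝ U x := fun x hx =>
    (hU.c1.contDiffAt (Metric.isOpen_ball.mem_nhds hx)).differentiableAt (by norm_num)
  have hfd : Differentiable ℝ f := hf.smooth.differentiable (by norm_num)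
  -- the derivatives at a point of the real axis
  set A' : ℝ → ℝ := fun s => (fderiv ℝ U (s : ℂ) 1) 0 with hA'
  set B' : ℝ → ℝ := fun s => (fderiv ℝ U (s : ℂ) 1) 1 with hB'
  set h' : ℝ → ℝ := fun s => (fderiv ℝ U (s : ℂ) 1) 2 with hh'
  have hcA : ∀ s ∈ Set.Ioo 0 L, HasDerivAt (fun x : ℝ => U (x : ℂ) 0) (A' s) s := fun s hs =>
    hasDerivAt_coord _ _ s (hasDerivAt_real U s (hdiff _ (hball s hs))) 0
  have hcB : ∀ s ∈ Set.Ioo 0 L, HasDerivAt (fun x : ℝ => U (x : ℂ) 1) (B' s) s := fun s hs =>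
    hasDerivAt_coord _ _ s (hasDerivAt_real U s (hdiff _ (hball s hs))) 1
  have hch : ∀ s ∈ Set.Ioo 0 L, HasDerivAt (fun x : ℝ => U (x : ℂ) 2) (h' s) s := fun s hs =>
    hasDerivAt_coord _ _ s (hasDerivAt_real U s (hdiff _ (hball s hs))) 2
  -- the derivative along the parallel
  have hpar : ∀ s ∈ Set.Ioo 0 L, fderiv ℝ U (s : ℂ) (Complex.I * s)
      = !₂[-(U (s : ℂ) 1), U (s : ℂ) 0, 0] := by
    intro s hs
    have hd := hasDerivAt_parallel U s (hdiff _ (hball s hs))
    have e0 := hasDerivAt_coord _ _ _ hd 0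
    have e1 := hasDerivAt_coord _ _ _ hd 1
    have e2 := hasDerivAt_coord _ _ _ hd 2
    have g0 : (fun t : ℝ => U (Complex.exp (t * Complex.I) * s) 0)
        = fun t => Real.cos t * U s 0 - Real.sin t * U s 1 := by
      funext t
      exact (heq _ (hball s hs) t).1
    have g1 : (fun t : ℝ => U (Complex.exp (t * Complex.I) * s) 1)
        = fun t => Real.sin t * U s 0 + Real.cos t * U s 1 := by
      funext t
      exact (heq _ (hball s hs) t).2.1
    have g2 : (fun t : ℝ => U (Complex.exp (t * Complex.I) * s) 2) = fun t => U s 2 := by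
      funext t
      exact (heq _ (hball s hs) t).2.2
    rw [g0] at e0
    rw [g1] at e1
    rw [g2] at e2
    have f0 : HasDerivAt (fun t : ℝ => Real.cos t * U s 0 - Real.sin t * U s 1)
        (-(U (s : ℂ) 1)) 0 := by
      refine (((Real.hasDerivAt_cos 0).mul_const (U s 0)).fun_sub
        ((Real.hasDerivAt_sin 0).mul_const (U s 1))).congr_deriv ?_
      simp
    have f1 : HasDerivAt (fun t : ℝ => Real.sin t * U s 0 + Real.cos t * U s 1)
        (U (s : ℂ) 0) 0 := by
      refine (((Real.hasDerivAt_sin 0).mul_const (U s 0)).fun_add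
        ((Real.hasDerivAt_cos 0).mul_const (U s 1))).congr_deriv ?_
      simp
    have f2 : HasDerivAt (fun _ : ℝ => U (s : ℂ) 2) 0 0 := hasDerivAt_const _ _
    ext i
    fin_cases i
    · exact e0.unique f0
    · exact e1.unique f1
    · exact e2.unique f2
  -- metric identities
  have hmet : ∀ s ∈ Set.Ioo 0 L, ∀ X : ℂ, ‖fderiv ℝ U (s : ℂ) X‖ ^ 2
      = X.re ^ 2 + (f s * (X.im / s)) ^ 2 := by
    intro s hs X
    rw [hU.isometric _ (hball s hs) X]
    have hs0 : (s : ℂ) ≠ 0 := by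
      exact_mod_cast hs.1.ne'
    have hs1 := hs.1.ne'
    unfold metric
    rw [if_neg hs0, Complex.norm_real, Real.norm_eq_abs, abs_of_pos hs.1, Complex.conj_ofReal,
      Complex.re_mul_ofReal, Complex.im_mul_ofReal]
    have e1 : X.re * s / s = X.re := by field_simp
    have e2 : X.im * s / s ^ 2 = X.im / s := by field_simp
    rw [e1, e2]
  have E1 : ∀ s ∈ Set.Ioo 0 L, U (s : ℂ) 0 ^ 2 + U (s : ℂ) 1 ^ 2 = f s ^ 2 := by
    intro s hs
    have h1 := hmet s hs (Complex.I * s)
    rw [hpar s hs, norm_sq_E3] at h1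
    have hs1 := hs.1.ne'
    simp only [Complex.mul_re, Complex.I_re, Complex.ofReal_re, zero_mul, Complex.I_im,
      Complex.ofReal_im, mul_zero, sub_zero, Complex.mul_im, one_mul, zero_add] at h1
    rw [div_self hs1, mul_one] at h1
    simp at h1
    linarith
  have E3' : ∀ s ∈ Set.Ioo 0 L, A' s ^ 2 + B' s ^ 2 + h' s ^ 2 = 1 := by
    intro s hs
    have h1 := hmet s hs 1
    rw [norm_sq_E3] at h1
    simp at h1
    exact h1
  have E2 : ∀ s ∈ Set.Ioo 0 L, U (s : ℂ) 0 * B' s = U (s : ℂ) 1 * A' s := by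
    intro s hs
    have h1 := hmet s hs (1 + Complex.I * s)
    rw [map_add, hpar s hs, norm_sq_E3] at h1
    have h2 := E1 s hs
    have h3 := E3' s hs
    have hs1 := hs.1.ne'
    simp only [Complex.add_re, Complex.one_re, Complex.add_im, Complex.one_im, Complex.mul_re,
      Complex.I_re, Complex.ofReal_re, zero_mul, Complex.I_im,
      Complex.ofReal_im, mul_zero, sub_zero, Complex.mul_im, one_mul, add_zero, zero_add] at h1
    rw [div_self hs1, mul_one] at h1
    simp at h1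
    simp only [hA', hB', hh'] at h3 ⊢
    linarith
  -- both coordinates are multiples of the profile
  have D1 : ∀ s ∈ Set.Ioo 0 L, U (s : ℂ) 0 * A' s + U (s : ℂ) 1 * B' s = f s * deriv f s := by
    intro s hs
    have h1 : HasDerivAt (fun x : ℝ => U (x : ℂ) 0 ^ 2 + U (x : ℂ) 1 ^ 2)
        (2 * U (s : ℂ) 0 * A' s + 2 * U (s : ℂ) 1 * B' s) s := by
      refine (((hcA s hs).fun_pow 2).fun_add ((hcB s hs).fun_pow 2)).congr_deriv ?_
      simp
    have h2 : HasDerivAt (fun x : ℝ => f x ^ 2) (2 * f s * deriv f s) s := by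
      refine ((hfd s).hasDerivAt.fun_pow 2).congr_deriv ?_
      simp
    have h3 : (fun x : ℝ => f x ^ 2) =ᶠ[𝓝 s] (fun x : ℝ => U (x : ℂ) 0 ^ 2 + U (x : ℂ) 1 ^ 2) := by
      filter_upwards [isOpen_Ioo.mem_nhds hs] with x hx
      exact (E1 x hx).symm
    have h4 := (h1.congr_of_eventuallyEq h3).unique h2
    linarith
  have F1 : ∀ s ∈ Set.Ioo 0 L, f s * A' s = U (s : ℂ) 0 * deriv f s := by
    intro s hs
    have hfs := hf.positive s hs
    have h1 : f s * (f s * A' s) = f s * (U (s : ℂ) 0 * deriv f s) := by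
      linear_combination (-(A' s)) * E1 s hs + U (s : ℂ) 0 * D1 s hs - U (s : ℂ) 1 * E2 s hs
    exact mul_left_cancel₀ hfs.ne' h1
  have F2 : ∀ s ∈ Set.Ioo 0 L, f s * B' s = U (s : ℂ) 1 * deriv f s := by
    intro s hs
    have hfs := hf.positive s hs
    have h1 : f s * (f s * B' s) = f s * (U (s : ℂ) 1 * deriv f s) := by
      linear_combination (-(B' s)) * E1 s hs + U (s : ℂ) 1 * D1 s hs + U (s : ℂ) 0 * E2 s hs
    exact mul_left_cancel₀ hfs.ne' h1
  have hreal0 : HasDerivAt (fun x : ℝ => U (x : ℂ)) !₂[1, 0, 0] 0 := by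
    have h1 := hasDerivAt_real U 0 (by simpa using hdiff 0 hb0)
    refine h1.congr_deriv ?_
    rw [Complex.ofReal_zero, hD]
    simp
  have HA : ∀ s ∈ Set.Ioo 0 L, U (s : ℂ) 0 = 1 * f s := by
    refine eq_mul_profile L f hf _ A' 1 hcA ?_ ?_ F1
    · exact hasDerivAt_coord _ _ _ hreal0 0
    · simp [h0]
  have HB : ∀ s ∈ Set.Ioo 0 L, U (s : ℂ) 1 = 0 * f s := by
    refine eq_mul_profile L f hf _ B' 0 hcB ?_ ?_ F2
    · exact hasDerivAt_coord _ _ _ hreal0 1
    · simp [h0]
  have HA' : ∀ s ∈ Set.Ioo 0 L, A' s = deriv f s := by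
    intro s hs
    have h1 := F1 s hs
    rw [HA s hs, one_mul] at h1
    exact mul_left_cancel₀ (hf.positive s hs).ne' h1
  have HB' : ∀ s ∈ Set.Ioo 0 L, B' s = 0 := by
    intro s hs
    have h1 := F2 s hs
    rw [HB s hs, zero_mul, zero_mul] at h1
    rcases mul_eq_zero.mp h1 with h2 | h2
    · exact absurd h2 (hf.positive s hs).ne'
    · exact h2
  have Hh' : ∀ s ∈ Set.Ioo 0 L, h' s ^ 2 = 1 - deriv f s ^ 2 := by
    intro s hs
    have h1 := E3' s hs
    rw [HA' s hs, HB' s hs] at h1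
    linarith
  have hcont' : ContinuousOn h' (Set.Ioo 0 L) := by
    have h1 : ContinuousOn (fderiv ℝ U) (Metric.ball 0 L) :=
      hU.c1.continuousOn_fderiv_of_isOpen Metric.isOpen_ball (le_refl 1)
    have h2 : ContinuousOn (fun s : ℝ => fderiv ℝ U (s : ℂ)) (Set.Ioo 0 L) :=
      h1.comp Complex.continuous_ofReal.continuousOn (fun s hs => hball s hs)
    have h3 : ContinuousOn (fun s : ℝ => fderiv ℝ U (s : ℂ) 1) (Set.Ioo 0 L) :=
      h2.clm_apply continuousOn_const
    exact (EuclideanSpace.proj (2 : Fin 3) : E3 →L[ℝ] ℝ).continuous.comp_continuousOn h3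
  obtain ⟨ε, hε, hH⟩ := height_eq L f hf (fun x : ℝ => U (x : ℂ) 2) h' hch
    (hasDerivAt_coord _ _ _ hreal0 2).continuousAt (by simp [h0]) hcont' Hh'
  refine ⟨ε, hε, ?_⟩
  intro x hx
  by_cases hx0 : x = 0
  · rw [hx0, h0]
    ext i
    fin_cases i <;> simp
  · have hn : 0 < ‖x‖ := norm_pos_iff.mpr hx0
    have hs : ‖x‖ ∈ Set.Ioo 0 L := ⟨hn, by rwa [mem_ball_zero_iff] at hx⟩
    have hxe : Complex.exp (x.arg * Complex.I) * (‖x‖ : ℂ) = x := by
      rw [mul_comm]
      exact Complex.norm_mul_exp_arg_mul_I x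
    have h1 := heq _ (hball _ hs) x.arg
    rw [hxe, HA _ hs, HB _ hs] at h1
    have h2 : Real.cos x.arg = x.re / ‖x‖ := Complex.cos_arg hx0
    have h3 : Real.sin x.arg = x.im / ‖x‖ := Complex.sin_arg x
    rw [h2, h3] at h1
    have h4 := hH _ hs
    ext i
    fin_cases i
    · change U x 0 = f ‖x‖ * (x.re / ‖x‖)
      rw [h1.1]
      ring
    · change U x 1 = f ‖x‖ * (x.im / ‖x‖)
      rw [h1.2.1]
      ring
    · change U x 2 = ε * ∫ s in (0 : ℝ)..‖x‖, √(1 - deriv f s ^ 2)
      rw [h1.2.2, ← h4]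

/-- a linear isometry from its norm condition -/
theorem exists_iso (T : E3 →ₗ[ℝ] E3) (hT : ∀ y, ‖T y‖ = ‖y‖) :
    ∃ e : E3 ≃ₗᵢ[ℝ] E3, ∀ y, e y = T y :=
  ⟨LinearIsometry.toLinearIsometryEquiv ⟨T, hT⟩ rfl, fun _ => rfl⟩

/-- compactness of the orthogonal group -/
theorem iso_subseq (e : ℕ → (E3 ≃ₗᵢ[ℝ] E3)) :
    ∃ (φ : ℕ → ℕ) (e' : E3 ≃ₗᵢ[ℝ] E3), StrictMono φ ∧
      ∀ y, Tendsto (fun k => e (φ k) y) atTop (𝓝 (e' y)) := by
  have hp : ProperSpace (E3 →L[ℝ] E3) := FiniteDimensional.proper ℝ (E3 →L[ℝ] E3)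
  set c : ℕ → (E3 →L[ℝ] E3) := fun k => ((e k).toContinuousLinearEquiv : E3 →L[ℝ] E3) with hc
  have hb : ∀ k, c k ∈ Metric.closedBall (0 : E3 →L[ℝ] E3) 1 := by
    intro k
    rw [mem_closedBall_zero_iff]
    refine ContinuousLinearMap.opNorm_le_bound _ zero_le_one (fun y => ?_)
    rw [one_mul]
    exact le_of_eq ((e k).norm_map y)
  obtain ⟨a, _, φ, hφ, hlim⟩ := tendsto_subseq_of_bounded Metric.isBounded_closedBall hb
  have hev : ∀ y, Tendsto (fun k => e (φ k) y) atTop (𝓝 (a y)) := by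
    intro y
    exact ((ContinuousLinearMap.apply ℝ E3 y).continuous.tendsto a).comp hlim
  have hn : ∀ y, ‖a y‖ = ‖y‖ := by
    intro y
    have h1 := (hev y).norm
    have h2 : Tendsto (fun k => ‖e (φ k) y‖) atTop (𝓝 ‖y‖) := by
      simp only [LinearIsometryEquiv.norm_map]
      exact tendsto_const_nhds
    exact tendsto_nhds_unique h1 h2
  obtain ⟨e', he'⟩ := exists_iso (a : E3 →ₗ[ℝ] E3) hn
  refine ⟨φ, e', hφ, fun y => ?_⟩
  rw [he' y]
  exact hev y

theorem extends_closed (L : ℝ) (hL : 0 < L) (V : ℂ → E3)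
    (hV : ContinuousOn V (Metric.ball 0 L)) : IsClosed {t : ℝ | Extends L V t} := by
  apply IsSeqClosed.isClosed
  intro t a ht hlim
  choose e p he using ht
  obtain ⟨φ, e', hφ, he'⟩ := iso_subseq e
  refine ⟨e', V 0 - e' (V 0), ?_⟩
  intro x hx
  have h0 : ∀ k, p k = V 0 - e k (V 0) := by
    intro k
    have := he k 0 (Metric.mem_ball_self hL)
    rw [mul_zero] at this
    rw [eq_sub_iff_add_eq]
    exact this.symm
  have h1 : Tendsto (fun k => V (Complex.exp ((t (φ k) : ℝ) * Complex.I) * x)) atTop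
      (𝓝 (V 0 - e' (V 0) + e' (V x))) := by
    have : (fun k => V (Complex.exp ((t (φ k) : ℝ) * Complex.I) * x))
        = fun k => V 0 - e (φ k) (V 0) + e (φ k) (V x) := by
      funext k
      rw [he (φ k) x hx, h0]
    rw [this]
    exact (tendsto_const_nhds.sub (he' (V 0))).add (he' (V x))
  have h2 : Tendsto (fun k => V (Complex.exp ((t (φ k) : ℝ) * Complex.I) * x)) atTop
      (𝓝 (V (Complex.exp ((a : ℝ) * Complex.I) * x))) := by
    have hcont : ContinuousAt V (Complex.exp ((a : ℝ) * Complex.I) * x) :=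
      hV.continuousAt (Metric.isOpen_ball.mem_nhds (exp_mem_ball L a x hx))
    have hexp : Continuous (fun s : ℝ => Complex.exp ((s : ℝ) * Complex.I) * x) := by fun_prop
    exact hcont.tendsto.comp ((hexp.tendsto a).comp (hlim.comp hφ.tendsto_atTop))
  exact tendsto_nhds_unique h2 h1

/-- the rotations which extend to rigid motions form a group -/
def symGroup (L : ℝ) (V : ℂ → E3) : AddSubgroup ℝ where
  carrier := {t : ℝ | Extends L V t}
  zero_mem' := by
    refine ⟨LinearIsometryEquiv.refl ℝ E3, 0, fun x _ => ?_⟩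
    simp
  add_mem' := by
    rintro s t ⟨e, p, he⟩ ⟨e', p', he'⟩
    refine ⟨e'.trans e, p + e p', fun x hx => ?_⟩
    have h1 : Complex.exp ((s + t : ℝ) * Complex.I) * x
        = Complex.exp (s * Complex.I) * (Complex.exp (t * Complex.I) * x) := by
      rw [← mul_assoc, ← Complex.exp_add]
      push_cast
      ring_nf
    rw [h1, he _ (exp_mem_ball L t x hx), he' x hx, map_add, LinearIsometryEquiv.trans_apply,
      add_assoc]
  neg_mem' := by
    rintro t ⟨e, p, he⟩
    refine ⟨e.symm, -e.symm p, fun x hx => ?_⟩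
    have h1 := he _ (exp_mem_ball L (-t) x hx)
    have h2 : Complex.exp (t * Complex.I) * (Complex.exp ((-t : ℝ) * Complex.I) * x) = x := by
      rw [← mul_assoc, ← Complex.exp_add]
      push_cast
      have : (t : ℂ) * Complex.I + -(t : ℂ) * Complex.I = 0 := by ring
      rw [this, Complex.exp_zero, one_mul]
    rw [h2] at h1
    have h3 := congrArg e.symm h1
    rw [map_add, LinearIsometryEquiv.symm_apply_apply] at h3
    rw [h3]
    abel

theorem all_of_infinite (L : ℝ) (hL : 0 < L) (V : ℂ → E3)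
    (hV : ContinuousOn V (Metric.ball 0 L))
    (h : {t ∈ Set.Ico 0 (2 * Real.pi) | Extends L V t}.Infinite) : ∀ t, Extends L V t := by
  rcases (symGroup L V).dense_or_cyclic with hd | ⟨a, ha⟩
  · intro t
    have h1 : closure {t : ℝ | Extends L V t} = Set.univ := hd.closure_eq
    rw [(extends_closed L hL V hV).closure_eq] at h1
    have : t ∈ {t : ℝ | Extends L V t} := h1 ▸ Set.mem_univ t
    exact this
  · exfalso
    apply h
    by_cases ha0 : a = 0
    · refine (Set.finite_singleton (0 : ℝ)).subset ?_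
      rintro t ⟨_, ht⟩
      have h1 : t ∈ symGroup L V := ht
      rw [ha, AddSubgroup.mem_closure_singleton] at h1
      obtain ⟨n, hn⟩ := h1
      rw [ha0, smul_zero] at hn
      exact hn.symm
    · have hab : 0 < |a| := abs_pos.mpr ha0
      set M : ℤ := ⌈2 * Real.pi / |a|⌉ with hM
      refine ((Set.finite_Icc (-M) M).image (fun n : ℤ => n • a)).subset ?_
      rintro t ⟨ht1, ht⟩
      have h1 : t ∈ symGroup L V := ht
      rw [ha, AddSubgroup.mem_closure_singleton] at h1
      obtain ⟨n, hn⟩ := h1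
      refine ⟨n, ?_, hn⟩
      have h2 : |(n : ℝ)| * |a| < 2 * Real.pi := by
        rw [← abs_mul]
        have : (n : ℝ) * a = t := by
          rw [← hn]
          simp
        rw [this, abs_of_nonneg ht1.1]
        exact ht1.2
      have h3 : |(n : ℝ)| ≤ M := by
        have h4 : |(n : ℝ)| ≤ 2 * Real.pi / |a| := by
          rw [le_div_iff₀ hab]
          exact h2.le
        exact h4.trans (Int.le_ceil _)
      have h5 : |n| ≤ M := by exact_mod_cast h3
      rw [abs_le] at h5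
      exact Set.mem_Icc.mpr h5

/-- composition with a rigid motion -/
theorem congr_iso (L : ℝ) (f : ℝ → ℝ) (V W : ℂ → E3) (hV : IsIsometricImmersion L f V)
    (R : E3 ≃ₗᵢ[ℝ] E3) (q : E3) (hW : ∀ x ∈ Metric.ball (0 : ℂ) L, W x = q + R (V x)) :
    IsIsometricImmersion L f W ∧ ∀ x ∈ Metric.ball (0 : ℂ) L, ∀ X : ℂ,
      fderiv ℝ W x X = R (fderiv ℝ V x X) := by
  have hder : ∀ x ∈ Metric.ball (0 : ℂ) L, HasFDerivAt W
      ((R.toContinuousLinearEquiv : E3 →L[ℝ] E3).comp (fderiv ℝ V x)) x := by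
    intro x hx
    have hn := Metric.isOpen_ball.mem_nhds hx
    have h1 : HasFDerivAt V (fderiv ℝ V x) x :=
      ((hV.c1.contDiffAt hn).differentiableAt (by norm_num)).hasFDerivAt
    have h2 : HasFDerivAt (fun x => q + R (V x))
        ((R.toContinuousLinearEquiv : E3 →L[ℝ] E3).comp (fderiv ℝ V x)) x :=
      ((R.toContinuousLinearEquiv : E3 →L[ℝ] E3).hasFDerivAt.comp x h1).const_add q
    refine h2.congr_of_eventuallyEq ?_
    filter_upwards [hn] with y hy
    exact hW y hy
  have hfd : ∀ x ∈ Metric.ball (0 : ℂ) L, ∀ X : ℂ,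
      fderiv ℝ W x X = R (fderiv ℝ V x X) := by
    intro x hx X
    rw [(hder x hx).fderiv]
    rfl
  refine ⟨⟨?_, ?_⟩, hfd⟩
  · have h1 : ContDiffOn ℝ 1 (fun x => q + R (V x)) (Metric.ball 0 L) :=
      contDiffOn_const.add (R.toContinuousLinearEquiv.contDiff.comp_contDiffOn hV.c1)
    exact h1.congr hW
  · intro x hx X
    rw [hfd x hx X, LinearIsometryEquiv.norm_map]
    exact hV.isometric x hx X

/-- the reflection in the third coordinate, or the identity -/
theorem exists_refl (ε : ℝ) (hε : ε = 1 ∨ ε = -1) :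
    ∃ R : E3 ≃ₗᵢ[ℝ] E3, ∀ a b c : ℝ, R !₂[a, b, c] = !₂[a, b, ε * c] := by
  set T : E3 →ₗ[ℝ] E3 :=
    { toFun := fun y => !₂[y 0, y 1, ε * y 2]
      map_add' := by
        intro x y
        ext i
        fin_cases i <;> simp <;> ring
      map_smul' := by
        intro c x
        ext i
        fin_cases i <;> simp <;> ring } with hT
  have hn : ∀ y, ‖T y‖ = ‖y‖ := by
    intro y
    have h1 : ‖T y‖ ^ 2 = ‖y‖ ^ 2 := by
      rw [norm_sq_E3, norm_sq_E3]
      have e0 : T y 0 = y 0 := rfl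
      have e1 : T y 1 = y 1 := rfl
      have e2 : T y 2 = ε * y 2 := rfl
      rw [e0, e1, e2]
      rcases hε with h | h <;> rw [h] <;> ring
    exact (pow_left_inj₀ (norm_nonneg _) (norm_nonneg _) two_ne_zero).mp h1
  obtain ⟨R, hR⟩ := exists_iso T hn
  refine ⟨R, fun a b c => ?_⟩
  rw [hR]
  rfl

/-- all rotations extend: `V` is congruent to the convex surface -/
theorem rigid (L : ℝ) (f : ℝ → ℝ) (hf : IsProfile L f) (V : ℂ → E3)
    (hV : IsIsometricImmersion L f V) (hs : ∀ t, Extends L V t) :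
    ∃ (e : E3 ≃ₗᵢ[ℝ] E3) (p : E3), ∀ x ∈ Metric.ball (0 : ℂ) L,
      V x = p + e (convexSurface f x) := by
  have hb0 : (0 : ℂ) ∈ Metric.ball (0 : ℂ) L := Metric.mem_ball_self hf.pos
  set D := fderiv ℝ V 0 with hD
  have hDn : ∀ X : ℂ, ‖D X‖ ^ 2 = ‖X‖ ^ 2 := by
    intro X
    rw [hD, hV.isometric 0 hb0 X]
    unfold metric
    rw [if_pos rfl]
  have hn1 : ‖D 1‖ = 1 := by
    have := hDn 1
    rw [norm_one, one_pow] at this
    exact (pow_eq_one_iff_of_nonneg (norm_nonneg _) two_ne_zero).mp this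
  have hnI : ‖D Complex.I‖ = 1 := by
    have := hDn Complex.I
    rw [Complex.norm_I, one_pow] at this
    exact (pow_eq_one_iff_of_nonneg (norm_nonneg _) two_ne_zero).mp this
  have hin : inner ℝ (D 1) (D Complex.I) = 0 := by
    have h1 := hDn (1 + Complex.I)
    rw [map_add, norm_add_sq_real, hn1, hnI] at h1
    have h2 : ‖(1 : ℂ) + Complex.I‖ ^ 2 = 2 := by
      rw [← Complex.normSq_eq_norm_sq, Complex.normSq_apply]
      norm_num
    rw [h2] at h1
    linarith
  -- an orthonormal basis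
  obtain ⟨b, hb⟩ : ∃ b : OrthonormalBasis (Fin 3) ℝ E3, b 0 = D 1 ∧ b 1 = D Complex.I := by
    have horth : Orthonormal ℝ (({0, 1} : Set (Fin 3)).domRestrict ![D 1, D Complex.I, 0]) := by
      have hin' : inner ℝ (D Complex.I) (D 1) = 0 := by rw [real_inner_comm]; exact hin
      constructor
      · rintro ⟨i, hi⟩
        rcases hi with rfl | hi
        · simpa using hn1
        · rw [Set.mem_singleton_iff] at hi
          subst hi
          simpa using hnI
      · rintro ⟨i, hi⟩ ⟨j, hj⟩ hij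
        rcases hi with rfl | hi <;> rcases hj with rfl | hj
        · exact absurd rfl hij
        · rw [Set.mem_singleton_iff] at hj
          subst hj
          simpa using hin
        · rw [Set.mem_singleton_iff] at hi
          subst hi
          simpa using hin'
        · rw [Set.mem_singleton_iff] at hi hj
          subst hi hj
          exact absurd rfl hij
    obtain ⟨b, hb⟩ := horth.exists_orthonormalBasis_extension_of_card_eq (by simp)
    exact ⟨b, hb 0 (by simp), hb 1 (by simp)⟩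
  obtain ⟨hb1, hb2⟩ := hb
  set U : ℂ → E3 := fun x => b.repr (V x - V 0) with hU
  have hUV : ∀ x ∈ Metric.ball (0 : ℂ) L, U x = -b.repr (V 0) + b.repr (V x) := by
    intro x _
    simp only [hU]
    rw [map_sub]
    abel
  obtain ⟨hUiso, hUder⟩ := congr_iso L f V U hV b.repr (-b.repr (V 0)) hUV
  have hU0 : U 0 = 0 := by
    simp only [hU]
    rw [sub_self, map_zero]
  have hUD : ∀ X : ℂ, fderiv ℝ U 0 X = !₂[X.re, X.im, 0] := by
    intro X
    rw [hUder 0 hb0 X]
    have h1 : fderiv ℝ V 0 X = X.re • b 0 + X.im • b 1 := by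
      rw [hb1, hb2, ← map_smul, ← map_smul, ← map_add, ← hD]
      congr 1
      apply Complex.ext <;> simp
    rw [h1, map_add, map_smul, map_smul, OrthonormalBasis.repr_self, OrthonormalBasis.repr_self]
    ext i
    fin_cases i <;> simp
  have hUs : ∀ t : ℝ, ∃ e : E3 ≃ₗᵢ[ℝ] E3, ∀ x ∈ Metric.ball (0 : ℂ) L,
       U (Complex.exp (t * Complex.I) * x) = e (U x) := by
    intro t
    obtain ⟨e, p, he⟩ := hs t
    refine ⟨b.repr.symm.trans (e.trans b.repr), fun x hx => ?_⟩
    have h0 := he 0 hb0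
    rw [mul_zero] at h0
    simp only [hU, LinearIsometryEquiv.trans_apply, LinearIsometryEquiv.symm_apply_apply]
    have h1 : V (Complex.exp (t * Complex.I) * x) - V 0 = e (V x) - e (V 0) := by
      rw [he x hx]
      conv_lhs => rw [h0]
      abel
    rw [h1, map_sub e]
  obtain ⟨ε, hε, hform⟩ := core L f hf U hUiso hU0 hUD hUs
  obtain ⟨R, hR⟩ := exists_refl ε hε
  refine ⟨R.trans b.repr.symm, V 0, fun x hx => ?_⟩
  have h1 := hform x hx
  have h2 : U x = R (convexSurface f x) := by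
    rw [h1]
    unfold convexSurface
    rw [hR]
  rw [LinearIsometryEquiv.trans_apply, ← h2]
  simp only [hU, LinearIsometryEquiv.symm_apply_apply]
  abel

/-- a pointwise limit of immersions with infinitely many symmetries -/
theorem limit_congr (L : ℝ) (f : ℝ → ℝ) (hf : IsProfile L f) (v : ℕ → ℂ → E3) (u : ℂ → E3)
    (hv : ∀ k, IsIsometricImmersion L f (v k))
    (hs : ∀ k, {t ∈ Set.Ico 0 (2 * Real.pi) | Extends L (v k) t}.Infinite)
    (hu : ∀ x ∈ Metric.ball (0 : ℂ) L, Tendsto (fun k => v k x) atTop (𝓝 (u x))) :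
    IsIsometricImmersion L f u ∧
      ∃ (e : E3 ≃ₗᵢ[ℝ] E3) (p : E3), ∀ x ∈ Metric.ball (0 : ℂ) L,
        u x = p + e (convexSurface f x) := by
  have hb0 : (0 : ℂ) ∈ Metric.ball (0 : ℂ) L := Metric.mem_ball_self hf.pos
  have hr : ∀ k, ∃ (e : E3 ≃ₗᵢ[ℝ] E3) (p : E3), ∀ x ∈ Metric.ball (0 : ℂ) L,
      v k x = p + e (convexSurface f x) := fun k =>
    rigid L f hf (v k) (hv k)
      (all_of_infinite L hf.pos (v k) (hv k).c1.continuousOn (hs k))
  choose e p hep using hr
  obtain ⟨φ, e', hφ, he'⟩ := iso_subseq e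
  have hform : ∀ x ∈ Metric.ball (0 : ℂ) L,
      u x = (u 0 - e' (convexSurface f 0)) + e' (convexSurface f x) := by
    intro x hx
    have h1 : Tendsto (fun k => v (φ k) x) atTop (𝓝 (u x)) := (hu x hx).comp hφ.tendsto_atTop
    have h0 : Tendsto (fun k => v (φ k) 0) atTop (𝓝 (u 0)) := (hu 0 hb0).comp hφ.tendsto_atTop
    have h2 : (fun k => v (φ k) x) = fun k => (v (φ k) 0 - e (φ k) (convexSurface f 0))
        + e (φ k) (convexSurface f x) := by
      funext k
      rw [hep (φ k) x hx, hep (φ k) 0 hb0]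
      abel
    rw [h2] at h1
    exact tendsto_nhds_unique h1 ((h0.sub (he' _)).add (he' _))
  refine ⟨?_, e', _, hform⟩
  refine (congr_iso L f (v 0) u (hv 0) ((e 0).symm.trans e')
    (u 0 - e' (convexSurface f 0) - e' ((e 0).symm (p 0))) ?_).1
  intro x hx
  rw [hform x hx, hep 0 x hx, LinearIsometryEquiv.trans_apply, map_add, map_add,
    LinearIsometryEquiv.symm_apply_apply]
  abel

/-- Let `v_k` be `C¹` isometric immersions of a positively curved sphere of revolution (without its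
south pole) which converge pointwise to a map `u`. Then either for all but finitely many `k` only
finitely many rotations of the sphere extend to rigid motions for `v_k`, or `u` is an isometric
immersion congruent to the convex surface of revolution. -/
theorem result (L : ℝ) (f : ℝ → ℝ) (hf : IsProfile L f) (v : ℕ → ℂ → E3) (u : ℂ → E3)
    (hv : ∀ k, IsIsometricImmersion L f (v k))
    (hu : ∀ x ∈ Metric.ball (0 : ℂ) L, Tendsto (fun k => v k x) atTop (𝓝 (u x))) :
    (∀ᶠ k in atTop, {t ∈ Set.Ico 0 (2 * Real.pi) | Extends L (v k) t}.Finite) ∨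
      (IsIsometricImmersion L f u ∧
        ∃ (e : E3 ≃ₗᵢ[ℝ] E3) (p : E3), ∀ x ∈ Metric.ball (0 : ℂ) L,
          u x = p + e (convexSurface f x)) := by
  by_cases h : ∀ᶠ k in atTop, {t ∈ Set.Ico 0 (2 * Real.pi) | Extends L (v k) t}.Finite
  · exact Or.inl h
  · right
    have h1 : ∃ᶠ k in atTop, {t ∈ Set.Ico 0 (2 * Real.pi) | Extends L (v k) t}.Infinite :=
      (Filter.not_eventually.mp h).mono (fun _ hk => hk)
    obtain ⟨φ, hφ, hinf⟩ := extraction_of_frequently_atTop h1
    exact limit_congr L f hf (fun k => v (φ k)) u (fun k => hv (φ k)) hinf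
      (fun x hx => (hu x hx).comp hφ.tendsto_atTop)

end Pool.Agent.Results.MP_1b4d93_gt.RotationRigidity
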